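import Pool.Agent.W734.TWB.Stms

/-! Gross-Pitaevskii limit (S15753): convolution with the kernel of the resolvent. -/

set_option autoImplicit false

noncomputable section

namespace Pool.Agent.W153.TWB

open MeasureTheory Set Filter Metric Topology
open Pool.Agent.W734.TWB
open scoped Convolution

/-! ### general facts about `cv3` -/

lemma cv_eq (k h : E3 → ℝ) (x : E3) : cv3 k h x = ∫ y, k y * h (x - y) := by
  rw [cv3, ← integral_sub_left_eq_self (fun y => k y * h (x - y)) volume x]
  simp

lemma cv_integrable {k : E3 → ℝ} (hk : Integrable k) {h : E3 → ℝ} (hm : Measurable h)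
    {C : ℝ} (hC : ∀ y, |h y| ≤ C) (x : E3) : Integrable (fun y => k (x - y) * h y) :=
  (hk.comp_sub_left x).mul_bdd hm.aestronglyMeasurable (Eventually.of_forall hC)

lemma cv_abs_le {k : E3 → ℝ} (hk : Integrable k) {h : E3 → ℝ}
    {C : ℝ} (hC : ∀ y, |h y| ≤ C) (x : E3) : |cv3 k h x| ≤ (∫ y, |k y|) * C := by
  rw [cv_eq, ← integral_mul_const]
  rw [← Real.norm_eq_abs]
  refine (norm_integral_le_integral_norm _).trans ?_
  apply integral_mono_of_nonneg
  · exact Eventually.of_forall fun y => norm_nonneg _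
  · exact hk.abs.mul_const _
  · refine Eventually.of_forall fun y => ?_
    simp only [norm_mul]
    exact mul_le_mul_of_nonneg_left (hC _) (abs_nonneg _)

lemma cv_stronglyMeasurable {k h : E3 → ℝ} (hk : Measurable k) (hm : Measurable h) :
    StronglyMeasurable (cv3 k h) := by
  unfold cv3
  have : Measurable (fun q : E3 × E3 => k (q.1 - q.2) * h q.2) :=
    (hk.comp (measurable_fst.sub measurable_snd)).mul (hm.comp measurable_snd)
  exact this.stronglyMeasurable.integral_prod_right'

/-- `cv3` as a convolution -/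
lemma cv_conv (k h : E3 → ℝ) : cv3 k h = (k ⋆[ContinuousLinearMap.mul ℝ ℝ, volume] h) := by
  funext x
  rw [cv_eq, convolution_def]
  rfl

lemma cv_conv' (k h : E3 → ℝ) : cv3 k h = (h ⋆[ContinuousLinearMap.mul ℝ ℝ, volume] k) := by
  funext x
  rw [cv3, convolution_def]
  refine integral_congr_ae (Eventually.of_forall fun y => ?_)
  simp only [ContinuousLinearMap.mul_apply']
  ring

/-- a bounded measurable function is locally integrable -/
lemma locInt_of_bdd {h : E3 → ℝ} (hm : Measurable h) {C : ℝ} (hC : ∀ y, |h y| ≤ C) :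
    LocallyIntegrable h := by
  intro x
  obtain ⟨K, hK, hKx⟩ := exists_compact_mem_nhds x
  refine ⟨K, hKx, ?_⟩
  refine Measure.integrableOn_of_bounded (M := C) hK.measure_lt_top.ne hm.aestronglyMeasurable ?_
  exact Eventually.of_forall fun y => hC y

/-- the convolution of an integrable and a bounded function is continuous -/
lemma cv_continuous {k : E3 → ℝ} (hk : Integrable k) {h : E3 → ℝ} (hm : Measurable h)
    {C : ℝ} (hC : ∀ y, |h y| ≤ C) : Continuous (cv3 k h) := by
  have hC0 : 0 ≤ C := (abs_nonneg _).trans (hC 0)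
  have h1 : ∀ n : ℕ, ∃ g : E3 → ℝ, HasCompactSupport g ∧
      (∫ x, ‖k x - g x‖) ≤ 1 / ((n : ℝ) + 1) ∧ Continuous g ∧ Integrable g := fun n =>
    hk.exists_hasCompactSupport_integral_sub_le (by positivity)
  choose g hg1 hg2 hg3 hg4 using h1
  have h2 : TendstoUniformly (fun n => cv3 (g n) h) (cv3 k h) atTop := by
    rw [Metric.tendstoUniformly_iff]
    intro ε hε
    have h3 : Tendsto (fun n : ℕ => 1 / ((n : ℝ) + 1) * C) atTop (𝓝 (0 * C)) :=
      tendsto_one_div_add_atTop_nhds_zero_nat.mul_const C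
    rw [zero_mul] at h3
    filter_upwards [h3.eventually (gt_mem_nhds hε)] with n hn x
    have h4 : cv3 k h x - cv3 (g n) h x = cv3 (fun y => k y - g n y) h x := by
      unfold cv3
      rw [← integral_sub (cv_integrable hk hm hC x) (cv_integrable (hg4 n) hm hC x)]
      congr 1
      ext y
      ring
    rw [Real.dist_eq, h4]
    refine lt_of_le_of_lt (cv_abs_le (hk.sub (hg4 n)) hC x) ?_
    refine lt_of_le_of_lt ?_ hn
    refine mul_le_mul_of_nonneg_right ?_ hC0
    exact hg2 n
  refine h2.continuous (Frequently.of_forall fun n => ?_)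
  rw [cv_conv']
  exact (hg1 n).continuous_convolution_right _ (locInt_of_bdd hm hC) (hg3 n)

/-- dominated convergence -/
lemma cv_tendsto {k : E3 → ℝ} (hk : Integrable k) {h : ℕ → E3 → ℝ} {h' : E3 → ℝ}
    (hm : ∀ n, Measurable (h n)) {C : ℝ} (hC : ∀ n y, |h n y| ≤ C)
    (hlim : ∀ᵐ y, Tendsto (fun n => h n y) atTop (𝓝 (h' y))) (x : E3) :
    Tendsto (fun n => cv3 k (h n) x) atTop (𝓝 (cv3 k h' x)) := by
  apply tendsto_integral_of_dominated_convergence (fun y => |k (x - y)| * C)
  · intro n
    exact (cv_integrable hk (hm n) (hC n) x).aestronglyMeasurable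
  · exact (hk.comp_sub_left x).abs.mul_const _
  · intro n
    refine Eventually.of_forall fun y => ?_
    rw [norm_mul, Real.norm_eq_abs, Real.norm_eq_abs]
    exact mul_le_mul_of_nonneg_left (hC n y) (abs_nonneg _)
  · filter_upwards [hlim] with y hy
    exact hy.const_mul _

/-! ### approximation of bounded functions -/

lemma exists_approx {h : E3 → ℝ} (hm : Measurable h) {C : ℝ} (hC : ∀ y, |h y| ≤ C) :
    ∃ g : ℕ → E3 → ℝ, (∀ n, ContDiff ℝ 1 (g n)) ∧ (∀ n, HasCompactSupport (g n)) ∧
      (∀ n y, |g n y| ≤ C) ∧ ∀ᵐ y, Tendsto (fun n => g n y) atTop (𝓝 (h y)) := by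
  have hC0 : 0 ≤ C := (abs_nonneg _).trans (hC 0)
  have hloc := locInt_of_bdd hm hC
  -- mollifiers
  let φ : ℕ → ContDiffBump (0 : E3) := fun n =>
    ⟨1 / ((n : ℝ) + 2), 2 / ((n : ℝ) + 2), by positivity, by
      apply div_lt_div_of_pos_right (by norm_num) (by positivity)⟩
  -- cut-off functions
  let χ : ℕ → ContDiffBump (0 : E3) := fun n =>
    ⟨(n : ℝ) + 1, (n : ℝ) + 2, by positivity, by linarith⟩
  have hφ1 : Tendsto (fun n => (φ n).rOut) atTop (𝓝 0) := by
    have h1 : Tendsto (fun n : ℕ => 2 / ((n : ℝ) + 2)) atTop (𝓝 0) := by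
      refine Tendsto.div_atTop tendsto_const_nhds ?_
      exact tendsto_atTop_add_const_right _ _ tendsto_natCast_atTop_atTop
    exact h1
  have hφ2 : ∀ᶠ n in atTop, (φ n).rOut ≤ 2 * (φ n).rIn := by
    refine Eventually.of_forall fun n => ?_
    show 2 / ((n : ℝ) + 2) ≤ 2 * (1 / ((n : ℝ) + 2))
    rw [mul_one_div]
  have hae := ContDiffBump.ae_convolution_tendsto_right_of_locallyIntegrable (μ := volume)
    hφ1 hφ2 hloc
  let m : ℕ → E3 → ℝ := fun n => ((φ n).normed volume ⋆[ContinuousLinearMap.lsmul ℝ ℝ, volume] h)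
  have hmb : ∀ n y, |m n y| ≤ C := by
    intro n y
    show |((φ n).normed volume ⋆[ContinuousLinearMap.lsmul ℝ ℝ, volume] h) y| ≤ C
    rw [convolution_def, ← Real.norm_eq_abs]
    refine (norm_integral_le_integral_norm _).trans ?_
    have h1 : ∫ t, ((φ n).normed volume t) * C = C := by
      rw [integral_mul_const, ContDiffBump.integral_normed, one_mul]
    rw [← h1]
    apply integral_mono_of_nonneg
    · exact Eventually.of_forall fun y => norm_nonneg _
    · exact ((φ n).integrable_normed).mul_const _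
    · refine Eventually.of_forall fun t => ?_
      simp only [ContinuousLinearMap.lsmul_apply, smul_eq_mul, norm_mul, Real.norm_eq_abs]
      rw [abs_of_nonneg ((φ n).nonneg_normed t)]
      exact mul_le_mul_of_nonneg_left (hC _) ((φ n).nonneg_normed t)
  have hmd : ∀ n, ContDiff ℝ 1 (m n) := by
    intro n
    exact (φ n).hasCompactSupport_normed.contDiff_convolution_left (n := 1) _
      (φ n).contDiff_normed hloc
  refine ⟨fun n y => χ n y * m n y, ?_, ?_, ?_, ?_⟩
  · intro n
    exact (χ n).contDiff.mul (hmd n)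
  · intro n
    exact (χ n).hasCompactSupport.mul_right
  · intro n y
    rw [abs_mul, abs_of_nonneg (χ n).nonneg]
    calc χ n y * |m n y| ≤ 1 * C :=
          mul_le_mul (χ n).le_one (hmb n y) (abs_nonneg _) zero_le_one
      _ = C := one_mul C
  · filter_upwards [hae] with y hy
    have h1 : Tendsto (fun n => χ n y) atTop (𝓝 1) := by
      refine tendsto_const_nhds.congr' ?_
      obtain ⟨N, hN⟩ := exists_nat_ge ‖y‖
      filter_upwards [eventually_ge_atTop N] with n hn
      symm
      refine (χ n).one_of_mem_closedBall ?_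
      rw [mem_closedBall, dist_zero_right]
      show ‖y‖ ≤ (n : ℝ) + 1
      have : (N : ℝ) ≤ n := by exact_mod_cast hn
      linarith
    have h2 := h1.mul hy
    rw [one_mul] at h2
    exact h2

/-! ### the derivative -/

/-- sum of coordinates times projections -/
def Vd (D : Fin 3 → E3 → ℝ) (h : E3 → ℝ) (x : E3) : E3 →L[ℝ] ℝ :=
  ∑ k : Fin 3, cv3 (D k) h x • (EuclideanSpace.proj k : E3 →L[ℝ] ℝ)

lemma Vd_apply (D : Fin 3 → E3 → ℝ) (h : E3 → ℝ) (x v : E3) :
    Vd D h x v = ∑ k : Fin 3, cv3 (D k) h x * v k := by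
  simp [Vd]

lemma Vd_single (D : Fin 3 → E3 → ℝ) (h : E3 → ℝ) (x : E3) (k : Fin 3) :
    Vd D h x (EuclideanSpace.single k (1 : ℝ)) = cv3 (D k) h x := by
  rw [Vd_apply, Finset.sum_eq_single k]
  · simp
  · intro j _ hj
    simp [hj]
  · simp

lemma sum_single (v : E3) : v = ∑ k : Fin 3, v k • (EuclideanSpace.single k (1 : ℝ) : E3) := by
  ext j
  simp [Finset.sum_apply, Pi.single_apply]

variable {κ : ℝ} {K : E3 → ℝ} {D : Fin 3 → E3 → ℝ}

/-- derivative for test functions -/
lemma hasFDerivAt_test (hK : Kern κ K D) {g : E3 → ℝ} (hg : ContDiff ℝ 1 g)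
    (hc : HasCompactSupport g) (x : E3) : HasFDerivAt (cv3 K g) (Vd D g x) x := by
  have h1 := hc.hasFDerivAt_convolution_right (ContinuousLinearMap.mul ℝ ℝ)
    (μ := volume) hK.intK.locallyIntegrable hg x
  rw [← cv_conv] at h1
  refine h1.congr_fderiv ?_
  have h2 : ∀ k : Fin 3, (K ⋆[(ContinuousLinearMap.mul ℝ ℝ).precompR E3, volume] fderiv ℝ g) x
      (EuclideanSpace.single k (1 : ℝ)) = cv3 (D k) g x := by
    intro k
    rw [convolution_precompR_apply _ hK.intK.locallyIntegrable (hc.fderiv ℝ)
      (hg.continuous_fderiv one_ne_zero), convolution_def]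
    have h3 := hK.grad (fun y => g (x - y)) (hg.comp (contDiff_const.sub contDiff_id)) (by
      exact hc.comp_homeomorph (Homeomorph.subLeft x)) k
    rw [← cv_eq] at h3
    have h4 : ∀ z, fderiv ℝ (fun y => g (x - y)) z (EuclideanSpace.single k (1 : ℝ)) =
        - fderiv ℝ g (x - z) (EuclideanSpace.single k (1 : ℝ)) := by
      intro z
      have h5 : HasFDerivAt (fun y => g (x - y))
          ((fderiv ℝ g (x - z)).comp (-(ContinuousLinearMap.id ℝ E3))) z := by
        have h6 : HasFDerivAt g (fderiv ℝ g (x - z)) (x - z) :=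
          (hg.differentiable one_ne_zero (x - z)).hasFDerivAt
        have h7 : HasFDerivAt (fun y : E3 => x - y) (-(ContinuousLinearMap.id ℝ E3)) z :=
          (hasFDerivAt_id z).const_sub x
        exact h6.comp z h7
      rw [h5.fderiv]
      simp
    simp_rw [h4, mul_neg] at h3
    rw [integral_neg, neg_inj] at h3
    exact h3
  ext v
  rw [sum_single v, map_sum, map_sum]
  refine Finset.sum_congr rfl fun k _ => ?_
  rw [map_smul, map_smul, h2, Vd_single]

/-- the fundamental theorem along segments for test functions -/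
lemma ftc_test (hK : Kern κ K D) {g : E3 → ℝ} (hg : ContDiff ℝ 1 g)
    (hc : HasCompactSupport g) (x v : E3) :
    cv3 K g (x + v) - cv3 K g x = ∫ s in (0 : ℝ)..1, Vd D g (x + s • v) v := by
  obtain ⟨C, hC⟩ := hg.continuous.bounded_above_of_compact_support hc
  have hcont : ∀ k, Continuous (cv3 (D k) g) := fun k =>
    cv_continuous (hK.intD k) hg.continuous.measurable hC
  have h1 : ∀ s ∈ Set.uIcc (0 : ℝ) 1, HasDerivAt (fun s : ℝ => cv3 K g (x + s • v))
      (Vd D g (x + s • v) v) s := by
    intro s _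
    have h2 := hasFDerivAt_test hK hg hc (x + s • v)
    have h3 : HasDerivAt (fun s : ℝ => x + s • v) v s := by
      have := ((hasDerivAt_id s).smul_const v).const_add x
      simpa using this
    exact h2.comp_hasDerivAt s h3
  have h4 : Continuous (fun s : ℝ => Vd D g (x + s • v) v) := by
    simp_rw [Vd_apply]
    refine continuous_finsetSum _ fun k _ => ?_
    exact ((hcont k).comp (by fun_prop)).mul continuous_const
  rw [intervalIntegral.integral_eq_sub_of_hasDerivAt h1 (h4.intervalIntegrable _ _)]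
  simp

/-- the same for bounded measurable functions -/
lemma ftc_bdd (hK : Kern κ K D) {h : E3 → ℝ} (hm : Measurable h) {C : ℝ}
    (hC : ∀ y, |h y| ≤ C) (x v : E3) :
    cv3 K h (x + v) - cv3 K h x = ∫ s in (0 : ℝ)..1, Vd D h (x + s • v) v := by
  obtain ⟨g, hg1, hg2, hg3, hg4⟩ := exists_approx hm hC
  have hgm : ∀ n, Measurable (g n) := fun n => (hg1 n).continuous.measurable
  have h1 : Tendsto (fun n => cv3 K (g n) (x + v) - cv3 K (g n) x) atTop
      (𝓝 (cv3 K h (x + v) - cv3 K h x)) :=
    (cv_tendsto hK.intK hgm hg3 hg4 _).sub (cv_tendsto hK.intK hgm hg3 hg4 _)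
  have h2 : Tendsto (fun n => ∫ s in (0 : ℝ)..1, Vd D (g n) (x + s • v) v) atTop
      (𝓝 (∫ s in (0 : ℝ)..1, Vd D h (x + s • v) v)) := by
    refine intervalIntegral.tendsto_integral_filter_of_dominated_convergence
      (fun _ => ∑ k : Fin 3, ((∫ y, |D k y|) * C) * |v k|) ?_ ?_ ?_ ?_
    · refine Eventually.of_forall fun n => ?_
      have h4 : Continuous (fun s : ℝ => Vd D (g n) (x + s • v) v) := by
        simp_rw [Vd_apply]
        refine continuous_finsetSum _ fun k _ => ?_
        exact ((cv_continuous (hK.intD k) (hgm n) (hg3 n)).comp (by fun_prop)).mul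
          continuous_const
      exact h4.aestronglyMeasurable
    · refine Eventually.of_forall fun n => Eventually.of_forall fun s _ => ?_
      rw [Vd_apply]
      refine (norm_sum_le _ _).trans (Finset.sum_le_sum fun k _ => ?_)
      rw [norm_mul, Real.norm_eq_abs, Real.norm_eq_abs]
      exact mul_le_mul_of_nonneg_right (cv_abs_le (hK.intD k) (hg3 n) _) (abs_nonneg _)
    · exact intervalIntegrable_const
    · refine Eventually.of_forall fun s _ => ?_
      simp_rw [Vd_apply]
      refine tendsto_finsetSum _ fun k _ => ?_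
      exact (cv_tendsto (hK.intD k) hgm hg3 hg4 _).mul_const _
  have h3 : ∀ n, cv3 K (g n) (x + v) - cv3 K (g n) x =
      ∫ s in (0 : ℝ)..1, Vd D (g n) (x + s • v) v := fun n => ftc_test hK (hg1 n) (hg2 n) x v
  simp_rw [h3] at h1
  exact tendsto_nhds_unique h1 h2

lemma Vd_continuous (hK : Kern κ K D) {h : E3 → ℝ} (hm : Measurable h) {C : ℝ}
    (hC : ∀ y, |h y| ≤ C) : Continuous (Vd D h) := by
  unfold Vd
  refine continuous_finsetSum _ fun k _ => ?_
  exact (cv_continuous (hK.intD k) hm hC).smul continuous_const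

lemma hasFDerivAt_bdd (hK : Kern κ K D) {h : E3 → ℝ} (hm : Measurable h) {C : ℝ}
    (hC : ∀ y, |h y| ≤ C) (x : E3) : HasFDerivAt (cv3 K h) (Vd D h x) x := by
  rw [hasFDerivAt_iff_isLittleO_nhds_zero, Asymptotics.isLittleO_iff]
  intro ε hε
  have hV := Vd_continuous hK hm hC
  obtain ⟨δ, hδ, hδ'⟩ := Metric.continuous_iff.1 hV x ε hε
  filter_upwards [Metric.ball_mem_nhds (0 : E3) hδ] with v hv
  rw [mem_ball, dist_zero_right] at hv
  have hc1 : Continuous (fun s : ℝ => Vd D h (x + s • v) v) := by
    have : Continuous (fun s : ℝ => Vd D h (x + s • v)) := hV.comp (by fun_prop)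
    exact this.clm_apply continuous_const
  have h1 : cv3 K h (x + v) - cv3 K h x - Vd D h x v =
      ∫ s in (0 : ℝ)..1, (Vd D h (x + s • v) v - Vd D h x v) := by
    rw [intervalIntegral.integral_sub (hc1.intervalIntegrable _ _) intervalIntegrable_const,
      ← ftc_bdd hK hm hC x v]
    simp
  rw [h1]
  have h2 := intervalIntegral.norm_integral_le_of_norm_le_const (a := (0 : ℝ)) (b := 1)
    (f := fun s => Vd D h (x + s • v) v - Vd D h x v) (C := ε * ‖v‖) (by
      intro s hs
      rw [Set.uIoc_of_le zero_le_one] at hs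
      have h3 : dist (x + s • v) x < δ := by
        rw [dist_eq_norm, add_sub_cancel_left, norm_smul, Real.norm_eq_abs, abs_of_pos hs.1]
        calc s * ‖v‖ ≤ 1 * ‖v‖ := mul_le_mul_of_nonneg_right hs.2 (norm_nonneg _)
          _ = ‖v‖ := one_mul _
          _ < δ := hv
      have h4 := hδ' _ h3
      rw [dist_eq_norm] at h4
      have h5 : Vd D h (x + s • v) v - Vd D h x v = (Vd D h (x + s • v) - Vd D h x) v := rfl
      rw [h5]
      exact ((Vd D h (x + s • v) - Vd D h x).le_opNorm v).trans
        (mul_le_mul_of_nonneg_right h4.le (norm_nonneg _)))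
  simpa using h2

theorem kc1 : S_KC1 := by
  intro κ K D _ hK h hm hB
  obtain ⟨C, hC⟩ := hB
  have h1 : ∀ x, HasFDerivAt (cv3 K h) (Vd D h x) x := hasFDerivAt_bdd hK hm hC
  have h2 : fderiv ℝ (cv3 K h) = Vd D h := funext fun x => (h1 x).fderiv
  refine ⟨?_, ?_⟩
  · rw [contDiff_one_iff_fderiv]
    refine ⟨fun x => (h1 x).differentiableAt, ?_⟩
    rw [h2]
    exact Vd_continuous hK hm hC
  · intro x k
    rw [h2, Vd_single]

/-! ### square integrability -/

theorem y2 : S_Y2 := by
  intro k h hk hki hh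
  obtain ⟨C, hC⟩ := hh.bdd
  refine ⟨(cv_stronglyMeasurable hk hh.meas).measurable, ⟨_, cv_abs_le hki hC⟩, ?_⟩
  set A : ℝ := ∫ y, |k y| with hA
  have hA0 : 0 ≤ A := integral_nonneg fun y => abs_nonneg _
  have hint : Integrable (fun x => A * cv3 (fun y => |k y|) (fun y => h y ^ 2) x) := by
    refine Integrable.const_mul ?_ A
    rw [cv_conv]
    exact hki.abs.integrable_convolution _ hh.sq
  refine hint.mono' ((cv_stronglyMeasurable hk hh.meas).measurable.pow_const 2).aestronglyMeasurable
    (Eventually.of_forall fun x => ?_)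
  have hkx : Integrable (fun y => |k (x - y)|) := (hki.comp_sub_left x).abs
  have hkA : ∫ y, |k (x - y)| = A := integral_sub_left_eq_self (fun y => |k y|) volume x
  have hC0 : 0 ≤ C := (abs_nonneg _).trans (hC 0)
  have hi1 : Integrable (fun y => |k (x - y)| * |h y|) :=
    hkx.mul_bdd (c := C) hh.meas.abs.aestronglyMeasurable (Eventually.of_forall fun y => by
      rw [Real.norm_eq_abs, abs_abs]
      exact hC y)
  have hi2 : Integrable (fun y => |k (x - y)| * h y ^ 2) :=
    hkx.mul_bdd (c := C ^ 2) (hh.meas.pow_const 2).aestronglyMeasurable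
      (Eventually.of_forall fun y => by
        rw [Real.norm_eq_abs, abs_pow]
        exact pow_le_pow_left₀ (abs_nonneg _) (hC y) 2)
  set a : ℝ := ∫ y, |k (x - y)| * |h y| with ha
  set b : ℝ := ∫ y, |k (x - y)| * h y ^ 2 with hb
  have hab : |cv3 k h x| ≤ a := by
    rw [cv3, ← Real.norm_eq_abs]
    refine (norm_integral_le_integral_norm _).trans (le_of_eq ?_)
    rw [ha]
    congr 1
    ext y
    rw [norm_mul, Real.norm_eq_abs, Real.norm_eq_abs]
  have hb' : cv3 (fun y => |k y|) (fun y => h y ^ 2) x = b := rfl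
  have hq : ∀ m : ℝ, 0 ≤ b - 2 * m * a + m ^ 2 * A := by
    intro m
    have h1 : b - 2 * m * a + m ^ 2 * A = ∫ y, |k (x - y)| * (|h y| - m) ^ 2 := by
      have hi3 : Integrable (fun y => |k (x - y)| * h y ^ 2 - 2 * m * (|k (x - y)| * |h y|)) :=
        hi2.sub (hi1.const_mul _)
      rw [← hkA, hb, ha, ← integral_const_mul, ← integral_const_mul, ← integral_sub hi2
        (hi1.const_mul _), ← integral_add hi3 (hkx.const_mul _)]
      congr 1
      ext y
      have : h y ^ 2 = |h y| ^ 2 := (sq_abs _).symm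
      rw [this]
      ring
    rw [h1]
    exact integral_nonneg fun y => mul_nonneg (abs_nonneg _) (sq_nonneg _)
  have ha0 : 0 ≤ a := integral_nonneg fun y => mul_nonneg (abs_nonneg _) (abs_nonneg _)
  have hfin : a ^ 2 ≤ A * b := by
    have h1 := hq a
    rcases eq_or_lt_of_le hA0 with h0 | h0
    · rw [← h0]
      by_contra hcon
      push Not at hcon
      have h2 : 0 < a := by
        rcases eq_or_lt_of_le ha0 with h3 | h3
        · rw [← h3] at hcon
          simp at hcon
        · exact h3
      have h4 := hq ((b + 1) / (2 * a))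
      rw [← h0] at h4
      have h5 : 2 * ((b + 1) / (2 * a)) * a = b + 1 := by
        field_simp
      rw [h5] at h4
      linarith
    · have h4 := hq (a / A)
      have h5 : b - 2 * (a / A) * a + (a / A) ^ 2 * A = b - a ^ 2 / A := by
        field_simp
        ring
      rw [h5] at h4
      have h6 : a ^ 2 / A ≤ b := by linarith
      rw [div_le_iff₀ h0] at h6
      linarith
  rw [Real.norm_eq_abs, abs_pow, hb']
  exact (pow_le_pow_left₀ (abs_nonneg _) hab 2).trans hfin

end Pool.Agent.W153.TWB
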